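import Pool.Agent.Helper30.PB.St

/-!
# Project PB (MP_2d2425_nt), module FNP: second moment and Cauchy-Schwarz
-/

set_option autoImplicit false

noncomputable section

namespace Pool.Agent.Helper55.PB

open Finset ArithmeticFunction
open Pool.Agent.Helper30.PB
open Pool.Agent.Helper93.KN (ff StSieve StAvg)
open Pool.Agent.Helper48.BK (StSW th)

private theorem ff_one_le (m : ℕ) : 1 ≤ ff m := by
  unfold ff
  exact Finset.one_le_prod fun l _ => by
    have : (0 : ℝ) ≤ 4 / (l : ℝ) := by positivity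
    linarith

private theorem ff_mul_le (m m' : ℕ) : ff (m * m') ≤ ff m * ff m' := by
  by_cases h : m = 0 ∨ m' = 0
  · have h0 : m * m' = 0 := by
      rcases h with h | h <;> simp [h]
    have h1 : ff (m * m') = 1 := by
      rw [h0]
      simp [ff]
    rw [h1]
    nlinarith [ff_one_le m, ff_one_le m']
  · rw [not_or] at h
    have h1 : ff (m * m') = ∏ l ∈ m.primeFactors ∪ m'.primeFactors, (1 + 4 / (l : ℝ)) := by
      unfold ff
      rw [Nat.primeFactors_mul h.1 h.2]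
    have h2 := Finset.prod_union_inter (s₁ := m.primeFactors) (s₂ := m'.primeFactors)
      (f := fun l : ℕ => 1 + 4 / (l : ℝ))
    have h3 : 1 ≤ ∏ l ∈ m.primeFactors ∩ m'.primeFactors, (1 + 4 / (l : ℝ)) :=
      Finset.one_le_prod fun l _ => by
        have : (0 : ℝ) ≤ 4 / (l : ℝ) := by positivity
        linarith
    have h4 : 0 ≤ ff (m * m') := by linarith [ff_one_le (m * m')]
    calc ff (m * m') = ff (m * m') * 1 := (mul_one _).symm
      _ ≤ ff (m * m') * ∏ l ∈ m.primeFactors ∩ m'.primeFactors, (1 + 4 / (l : ℝ)) :=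
          mul_le_mul_of_nonneg_left h3 h4
      _ = ff m * ff m' := by
          rw [h1, h2]
          rfl

/-- Paley-Zygmund -/
private theorem pz (S : Finset ℕ) (F : ℕ → ℝ) (A M Q : ℝ) (hA : 0 < A)
    (hS : (S.card : ℝ) ≤ A) (hM0 : 0 ≤ M) (hM : M ≤ ∑ a ∈ S, F a)
    (hQ : ∑ a ∈ S, F a ^ 2 ≤ Q) :
    M ^ 2 / 4 ≤ ((S.filter (fun a => M / (2 * A) ≤ F a)).card : ℝ) * Q := by
  classical
  set G := S.filter (fun a => M / (2 * A) ≤ F a) with hG
  have h1 : ∑ a ∈ S.filter (fun a => ¬ M / (2 * A) ≤ F a), F a ≤ M / 2 := by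
    calc ∑ a ∈ S.filter (fun a => ¬ M / (2 * A) ≤ F a), F a
        ≤ ∑ _a ∈ S.filter (fun a => ¬ M / (2 * A) ≤ F a), M / (2 * A) :=
          Finset.sum_le_sum fun a ha => (not_le.1 (mem_filter.1 ha).2).le
      _ = ((S.filter (fun a => ¬ M / (2 * A) ≤ F a)).card : ℝ) * (M / (2 * A)) := by
          rw [Finset.sum_const, nsmul_eq_mul]
      _ ≤ A * (M / (2 * A)) := by
          refine mul_le_mul_of_nonneg_right ?_ (by positivity)
          refine le_trans ?_ hS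
          exact_mod_cast Finset.card_le_card (Finset.filter_subset _ _)
      _ = M / 2 := by field_simp
  have h2 : M / 2 ≤ ∑ a ∈ G, F a := by
    have h3 := Finset.sum_filter_add_sum_filter_not S (fun a => M / (2 * A) ≤ F a) F
    rw [← h3] at hM
    rw [hG]
    linarith
  have h3 : (∑ a ∈ G, F a) ^ 2 ≤ (G.card : ℝ) * ∑ a ∈ G, F a ^ 2 :=
    sq_sum_le_card_mul_sum_sq
  have h4 : ∑ a ∈ G, F a ^ 2 ≤ Q := by
    refine le_trans ?_ hQ
    exact Finset.sum_le_sum_of_subset_of_nonneg (Finset.filter_subset _ _)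
      fun a _ _ => sq_nonneg _
  calc M ^ 2 / 4 = (M / 2) ^ 2 := by ring
    _ ≤ (∑ a ∈ G, F a) ^ 2 := pow_le_pow_left₀ (by positivity) h2 2
    _ ≤ (G.card : ℝ) * ∑ a ∈ G, F a ^ 2 := h3
    _ ≤ (G.card : ℝ) * Q := mul_le_mul_of_nonneg_left h4 (Nat.cast_nonneg _)

/-- the residue class -/
private def cls (Q a N : ℕ) : Finset ℕ := (Icc 1 N).filter (fun n => n % Q = a % Q)

private def sg (p : ℕ) : ℕ := p ^ 2 + p + 1

/-- from `n` in the class to `m` -/
private theorem pull (Q a N : ℕ) (hQ : 1 ≤ Q) (P : ℕ → Prop) (R : ℕ → Prop)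
    [DecidablePred P] [DecidablePred R] (h : ∀ m, P (Q * m + a % Q) → R m) :
    ((cls Q a N).filter P).card ≤ 1 + ((Icc 1 (N / Q)).filter R).card := by
  classical
  have hsub : (cls Q a N).filter P ⊆
      insert (a % Q) (((Icc 1 (N / Q)).filter R).image (fun m => Q * m + a % Q)) := by
    intro n hn
    rw [mem_filter] at hn
    obtain ⟨hn1, hn2⟩ := hn
    unfold cls at hn1
    rw [mem_filter, mem_Icc] at hn1
    obtain ⟨⟨h1, h2⟩, h3⟩ := hn1
    have h4 : Q * (n / Q) + a % Q = n := by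
      rw [← h3]
      exact Nat.div_add_mod n Q
    rw [mem_insert]
    by_cases h0 : n / Q = 0
    · left
      rw [h0] at h4
      omega
    · right
      rw [mem_image]
      refine ⟨n / Q, ?_, h4⟩
      rw [mem_filter, mem_Icc]
      refine ⟨⟨Nat.pos_of_ne_zero h0, Nat.div_le_div_right h2⟩, h _ ?_⟩
      rw [h4]
      exact hn2
  refine (Finset.card_le_card hsub).trans ?_
  refine (Finset.card_insert_le _ _).trans ?_
  have := Finset.card_image_le (s := (Icc 1 (N / Q)).filter R) (f := fun m => Q * m + a % Q)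
  omega

/-- the second moment -/
private theorem second {Q a b N K : ℕ} {C₁ C₂ C₃ : ℝ} (hC₁ : 0 < C₁) (hC₂ : 0 < C₂) (hC₃ : 0 < C₃)
    (hQ : 1 ≤ Q)
    (hP : ∀ Q h h' M : ℕ, 1 ≤ Q → 2 ≤ M →
      (((Icc 1 M).filter (fun m : ℕ => (2 * Q * m + h).Prime)).card : ℝ) ≤
        C₁ * (M / Real.log M) * ff (2 * Q) ∧
      (h ≠ h' → (((Icc 1 M).filter (fun m : ℕ => (2 * Q * m + h).Prime ∧
        (2 * Q * m + h').Prime)).card : ℝ) ≤
        C₁ * (M / Real.log M ^ 2) * ff (2 * Q * ((h : ℤ) - h').natAbs)))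
    (hB : ∀ K d t : ℕ, 2 ≤ K → 1 ≤ d → d ^ 2 ≤ K →
      ((pc K d t).card : ℝ) ≤ C₂ * (K / (d * Real.log K)) * ff d)
    (hA : ∀ K : ℕ, 2 ≤ K →
      ∑ v ∈ (((Icc 1 K).filter Nat.Prime) ×ˢ ((Icc 1 K).filter Nat.Prime)).filter
        (fun v : ℕ × ℕ => v.1 ≠ v.2),
        ff ((((v.1 ^ 2 + v.1 + 1 : ℕ) : ℤ) - ((v.2 ^ 2 + v.2 + 1 : ℕ) : ℤ)).natAbs) ≤
          C₃ * (K / Real.log K) ^ 2)
    (hK : 2 ≤ K) (hM2 : 2 ≤ N / Q) (hML : Real.log N ≤ 2 * Real.log ((N / Q : ℕ) : ℝ))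
    (hN : 2 ≤ N) (hKN : 16 * K ^ 2 ≤ N)
    (hμ : 1 ≤ (K : ℝ) / (Real.log K * Real.log N)) :
    ∑ n ∈ cls Q a N, (((pc K Q b).filter (fun p => (2 * n + sg p).Prime)).card : ℝ) ^ 2 ≤
      (1 + 2 * C₁ * C₂ * ff (2 * Q) * ff 1 + 4 * C₁ * C₃ * ff (2 * Q)) *
        (N * ((K : ℝ) / (Real.log K * Real.log N)) ^ 2) := by
  classical
  set μ : ℝ := (K : ℝ) / (Real.log K * Real.log N) with hμd
  set M : ℕ := N / Q with hMd
  have hNR : (2 : ℝ) ≤ N := by exact_mod_cast hN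
  have hKR : (2 : ℝ) ≤ K := by exact_mod_cast hK
  have hlog : 0 < Real.log N := Real.log_pos (by linarith)
  have hlogK : 0 < Real.log K := Real.log_pos (by linarith)
  have hlogM : 0 < Real.log M := by linarith
  have hMN : (M : ℝ) ≤ N := by
    have : M ≤ N := Nat.div_le_self N Q
    exact_mod_cast this
  have hM0 : (0 : ℝ) ≤ M := Nat.cast_nonneg M
  have hffQ := ff_one_le (2 * Q)
  have hff1 := ff_one_le 1
  set S := pc K Q b with hS
  set P : ℕ → ℕ → Prop := fun n p => (2 * n + sg p).Prime with hPd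
  have h2 : ∀ n, (S.filter (fun p => P n p)).card ^ 2 =
      ∑ v ∈ S ×ˢ S, if P n v.1 ∧ P n v.2 then 1 else 0 := by
    intro n
    rw [← Finset.card_filter, pow_two, ← Finset.card_product]
    congr 1
    ext v
    simp only [mem_filter, mem_product]
    tauto
  have h3 : ∑ n ∈ cls Q a N, (S.filter (fun p => P n p)).card ^ 2 =
      ∑ v ∈ S ×ˢ S, ((cls Q a N).filter (fun n => P n v.1 ∧ P n v.2)).card := by
    calc ∑ n ∈ cls Q a N, (S.filter (fun p => P n p)).card ^ 2 =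
          ∑ n ∈ cls Q a N, ∑ v ∈ S ×ˢ S, (if P n v.1 ∧ P n v.2 then 1 else 0) :=
          Finset.sum_congr rfl fun n _ => h2 n
      _ = _ := by
          rw [Finset.sum_comm]
          refine Finset.sum_congr rfl fun v _ => ?_
          rw [Finset.card_filter]
  have h4 : ∑ n ∈ cls Q a N, ((S.filter (fun p => P n p)).card : ℝ) ^ 2 =
      ∑ v ∈ S ×ˢ S, (((cls Q a N).filter (fun n => P n v.1 ∧ P n v.2)).card : ℝ) := by
    exact_mod_cast h3
  rw [h4]
  -- one pair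
  have hx : ∀ n p m : ℕ, n = Q * m + a % Q → 2 * n + sg p = 2 * Q * m + (2 * (a % Q) + sg p) := by
    intro n p m h
    rw [h]
    ring
  have hdiag1 : ∀ p : ℕ, (((cls Q a N).filter (fun n => P n p ∧ P n p)).card : ℝ) ≤
      1 + C₁ * (M / Real.log M) * ff (2 * Q) := by
    intro p
    have k1 := pull Q a N hQ (fun n => P n p ∧ P n p)
      (fun m : ℕ => (2 * Q * m + (2 * (a % Q) + sg p)).Prime) (by
        intro m hm
        have := hm.1
        simp only [hPd] at this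
        rwa [hx _ p m rfl] at this)
    have k2 := (hP Q (2 * (a % Q) + sg p) 0 M hQ hM2).1
    have k3 : (((cls Q a N).filter (fun n => P n p ∧ P n p)).card : ℝ) ≤
        1 + (((Icc 1 M).filter (fun m : ℕ => (2 * Q * m + (2 * (a % Q) + sg p)).Prime)).card : ℝ) := by
      exact_mod_cast k1
    linarith
  have hoff1 : ∀ p p' : ℕ, p ≠ p' → (((cls Q a N).filter (fun n => P n p ∧ P n p')).card : ℝ) ≤
      1 + C₁ * (M / Real.log M ^ 2) * (ff (2 * Q) *
        ff ((((p ^ 2 + p + 1 : ℕ) : ℤ) - ((p' ^ 2 + p' + 1 : ℕ) : ℤ)).natAbs)) := by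
    intro p p' hne
    have k1 := pull Q a N hQ (fun n => P n p ∧ P n p')
      (fun m : ℕ => (2 * Q * m + (2 * (a % Q) + sg p)).Prime ∧
        (2 * Q * m + (2 * (a % Q) + sg p')).Prime) (by
        intro m hm
        simp only [hPd] at hm
        rwa [hx _ p m rfl, hx _ p' m rfl] at hm)
    have hne2 : 2 * (a % Q) + sg p ≠ 2 * (a % Q) + sg p' := by
      intro h
      have h5 : sg p = sg p' := by omega
      unfold sg at h5
      rcases lt_or_gt_of_ne hne with h6 | h6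
      · nlinarith
      · nlinarith
    have k2 := (hP Q (2 * (a % Q) + sg p) (2 * (a % Q) + sg p') M hQ hM2).2 hne2
    have k3 : (((cls Q a N).filter (fun n => P n p ∧ P n p')).card : ℝ) ≤
        1 + (((Icc 1 M).filter (fun m : ℕ => (2 * Q * m + (2 * (a % Q) + sg p)).Prime ∧
        (2 * Q * m + (2 * (a % Q) + sg p')).Prime)).card : ℝ) := by
      exact_mod_cast k1
    have k4 : (((2 * (a % Q) + sg p : ℕ) : ℤ) - ((2 * (a % Q) + sg p' : ℕ) : ℤ)).natAbs =
        ((((p ^ 2 + p + 1 : ℕ) : ℤ) - ((p' ^ 2 + p' + 1 : ℕ) : ℤ)).natAbs) := by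
      unfold sg
      congr 1
      push_cast
      ring
    rw [k4] at k2
    have k5 := ff_mul_le (2 * Q) ((((p ^ 2 + p + 1 : ℕ) : ℤ) - ((p' ^ 2 + p' + 1 : ℕ) : ℤ)).natAbs)
    have k6 : C₁ * (M / Real.log M ^ 2) *
        ff (2 * Q * ((((p ^ 2 + p + 1 : ℕ) : ℤ) - ((p' ^ 2 + p' + 1 : ℕ) : ℤ)).natAbs)) ≤
        C₁ * (M / Real.log M ^ 2) * (ff (2 * Q) *
        ff ((((p ^ 2 + p + 1 : ℕ) : ℤ) - ((p' ^ 2 + p' + 1 : ℕ) : ℤ)).natAbs)) :=
      mul_le_mul_of_nonneg_left k5 (by positivity)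
    linarith
  -- cardinalities
  have hSp : S ⊆ (Icc 1 K).filter Nat.Prime := by
    intro p hp
    rw [hS] at hp
    unfold pc at hp
    rw [mem_filter] at hp ⊢
    exact ⟨hp.1, hp.2.1⟩
  have hprim : (((Icc 1 K).filter Nat.Prime).card : ℝ) ≤ C₂ * (K / Real.log K) * ff 1 := by
    have k1 := hB K 1 0 hK le_rfl (by omega)
    have k2 : pc K 1 0 = (Icc 1 K).filter Nat.Prime := by
      unfold pc
      ext p
      simp [Nat.mod_one]
    rw [k2] at k1
    simpa using k1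
  have hScard : (S.card : ℝ) ≤ C₂ * (K / Real.log K) * ff 1 := by
    refine le_trans ?_ hprim
    exact_mod_cast Finset.card_le_card hSp
  have hSK : (S.card : ℝ) ≤ K := by
    have : S.card ≤ (Icc 1 K).card := Finset.card_le_card (hSp.trans (Finset.filter_subset _ _))
    rw [Nat.card_Icc] at this
    exact_mod_cast (by omega : S.card ≤ K)
  have hML1 : (M : ℝ) / Real.log M ≤ 2 * (N / Real.log N) := by
    rw [div_le_iff₀ hlogM]
    have e1 : 2 * (N / Real.log N) * Real.log M = N * (2 * Real.log M / Real.log N) := by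
      field_simp
    rw [e1]
    have e2 : 1 ≤ 2 * Real.log M / Real.log N := by
      rw [le_div_iff₀ hlog]
      linarith
    nlinarith
  have hML2 : (M : ℝ) / Real.log M ^ 2 ≤ 4 * (N / Real.log N ^ 2) := by
    rw [div_le_iff₀ (by positivity)]
    have e1 : 4 * (N / Real.log N ^ 2) * Real.log M ^ 2 = N * (2 * Real.log M / Real.log N) ^ 2 := by
      field_simp
      ring
    rw [e1]
    have e2 : 1 ≤ 2 * Real.log M / Real.log N := by
      rw [le_div_iff₀ hlog]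
      linarith
    have e3 : 1 ≤ (2 * Real.log M / Real.log N) ^ 2 := one_le_pow₀ e2
    nlinarith
  have hμ2 : (K : ℝ) / Real.log K * (N / Real.log N) = N * μ := by
    rw [hμd]
    field_simp
  have hμ3 : (N : ℝ) / Real.log N ^ 2 * (K / Real.log K) ^ 2 = N * μ ^ 2 := by
    rw [hμd]
    field_simp
  -- the split
  have hsplit := Finset.sum_filter_add_sum_filter_not (S ×ˢ S) (fun v : ℕ × ℕ => ¬ v.1 ≠ v.2)
    (fun v => (((cls Q a N).filter (fun n => P n v.1 ∧ P n v.2)).card : ℝ))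
  rw [← hsplit]
  have hd : ∑ v ∈ (S ×ˢ S).filter (fun v : ℕ × ℕ => ¬ v.1 ≠ v.2),
      (((cls Q a N).filter (fun n => P n v.1 ∧ P n v.2)).card : ℝ) ≤
      ((S ×ˢ S).filter (fun v : ℕ × ℕ => ¬ v.1 ≠ v.2)).card +
        2 * C₁ * C₂ * ff (2 * Q) * ff 1 * (N * μ) := by
    have e2 : (S ×ˢ S).filter (fun v : ℕ × ℕ => ¬ v.1 ≠ v.2) = S.image (fun k => (k, k)) := by
      ext v
      obtain ⟨v1, v2⟩ := v
      simp only [mem_filter, mem_product, mem_image, not_not, ne_eq, Prod.mk.injEq]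
      constructor
      · rintro ⟨⟨h5, _⟩, h6⟩
        exact ⟨v1, h5, rfl, h6⟩
      · rintro ⟨k, h5, rfl, rfl⟩
        exact ⟨⟨h5, h5⟩, rfl⟩
    have hinj : Set.InjOn (fun k : ℕ => (k, k)) (S : Set ℕ) := fun k _ k' _ h => (Prod.mk.inj h).1
    rw [e2, Finset.sum_image hinj, Finset.card_image_of_injOn hinj]
    calc ∑ p ∈ S, (((cls Q a N).filter (fun n => P n p ∧ P n p)).card : ℝ)
        ≤ ∑ _p ∈ S, (1 + C₁ * (M / Real.log M) * ff (2 * Q)) :=
          Finset.sum_le_sum fun p _ => hdiag1 p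
      _ = S.card + S.card * (C₁ * (M / Real.log M) * ff (2 * Q)) := by
          rw [Finset.sum_const, nsmul_eq_mul]
          ring
      _ ≤ S.card + (C₂ * (K / Real.log K) * ff 1) * (C₁ * (2 * (N / Real.log N)) * ff (2 * Q)) := by
          refine add_le_add le_rfl ?_
          refine mul_le_mul hScard ?_ (by positivity) (by positivity)
          refine mul_le_mul_of_nonneg_right ?_ (by linarith)
          exact mul_le_mul_of_nonneg_left hML1 hC₁.le
      _ = S.card + 2 * C₁ * C₂ * ff (2 * Q) * ff 1 * (K / Real.log K * (N / Real.log N)) := by ring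
      _ = _ := by rw [hμ2]
  have ho : ∑ v ∈ (S ×ˢ S).filter (fun v : ℕ × ℕ => ¬ ¬ v.1 ≠ v.2),
      (((cls Q a N).filter (fun n => P n v.1 ∧ P n v.2)).card : ℝ) ≤
      ((S ×ˢ S).filter (fun v : ℕ × ℕ => ¬ ¬ v.1 ≠ v.2)).card +
        4 * C₁ * C₃ * ff (2 * Q) * (N * μ ^ 2) := by
    set g : ℕ × ℕ → ℝ := fun v =>
      ff ((((v.1 ^ 2 + v.1 + 1 : ℕ) : ℤ) - ((v.2 ^ 2 + v.2 + 1 : ℕ) : ℤ)).natAbs) with hg
    have hg0 : ∀ v, 0 ≤ g v := fun v => zero_le_one.trans (ff_one_le _)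
    have e5 : ∑ v ∈ (S ×ˢ S).filter (fun v : ℕ × ℕ => ¬ ¬ v.1 ≠ v.2), g v ≤
        C₃ * (K / Real.log K) ^ 2 := by
      refine le_trans ?_ (hA K hK)
      refine Finset.sum_le_sum_of_subset_of_nonneg ?_ fun v _ _ => hg0 v
      intro v hv
      rw [mem_filter, mem_product, not_not] at hv
      rw [mem_filter, mem_product]
      exact ⟨⟨hSp hv.1.1, hSp hv.1.2⟩, hv.2⟩
    have e6 : 0 ≤ ∑ v ∈ (S ×ˢ S).filter (fun v : ℕ × ℕ => ¬ ¬ v.1 ≠ v.2), g v :=
      Finset.sum_nonneg fun v _ => hg0 v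
    calc ∑ v ∈ (S ×ˢ S).filter (fun v : ℕ × ℕ => ¬ ¬ v.1 ≠ v.2),
          (((cls Q a N).filter (fun n => P n v.1 ∧ P n v.2)).card : ℝ)
        ≤ ∑ v ∈ (S ×ˢ S).filter (fun v : ℕ × ℕ => ¬ ¬ v.1 ≠ v.2),
            (1 + C₁ * (M / Real.log M ^ 2) * (ff (2 * Q) * g v)) := by
          refine Finset.sum_le_sum fun v hv => ?_
          rw [mem_filter, not_not] at hv
          exact hoff1 v.1 v.2 hv.2
      _ = ((S ×ˢ S).filter (fun v : ℕ × ℕ => ¬ ¬ v.1 ≠ v.2)).card +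
            C₁ * (M / Real.log M ^ 2) * ff (2 * Q) *
              ∑ v ∈ (S ×ˢ S).filter (fun v : ℕ × ℕ => ¬ ¬ v.1 ≠ v.2), g v := by
          rw [Finset.sum_add_distrib, Finset.sum_const, nsmul_eq_mul, mul_one, Finset.mul_sum]
          congr 1
          refine Finset.sum_congr rfl fun v _ => ?_
          ring
      _ ≤ ((S ×ˢ S).filter (fun v : ℕ × ℕ => ¬ ¬ v.1 ≠ v.2)).card +
            C₁ * (4 * (N / Real.log N ^ 2)) * ff (2 * Q) * (C₃ * (K / Real.log K) ^ 2) := by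
          refine add_le_add le_rfl ?_
          refine mul_le_mul ?_ e5 e6 (by positivity)
          refine mul_le_mul_of_nonneg_right ?_ (by linarith)
          exact mul_le_mul_of_nonneg_left hML2 hC₁.le
      _ = ((S ×ˢ S).filter (fun v : ℕ × ℕ => ¬ ¬ v.1 ≠ v.2)).card +
            4 * C₁ * C₃ * ff (2 * Q) * (N / Real.log N ^ 2 * (K / Real.log K) ^ 2) := by ring
      _ = _ := by rw [hμ3]
  have hcards : ((((S ×ˢ S).filter (fun v : ℕ × ℕ => ¬ v.1 ≠ v.2)).card : ℕ) : ℝ) +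
      (((S ×ˢ S).filter (fun v : ℕ × ℕ => ¬ ¬ v.1 ≠ v.2)).card : ℕ) ≤ N * μ ^ 2 := by
    have e1 := Finset.card_filter_add_card_filter_not (s := S ×ˢ S) (fun v : ℕ × ℕ => ¬ v.1 ≠ v.2)
    have e2 : ((((S ×ˢ S).filter (fun v : ℕ × ℕ => ¬ v.1 ≠ v.2)).card : ℕ) : ℝ) +
      (((S ×ˢ S).filter (fun v : ℕ × ℕ => ¬ ¬ v.1 ≠ v.2)).card : ℕ) = ((S ×ˢ S).card : ℕ) := by
      exact_mod_cast e1
    rw [e2, Finset.card_product]
    push_cast
    have e3 : (S.card : ℝ) * S.card ≤ K * K := mul_le_mul hSK hSK (Nat.cast_nonneg _) (by linarith)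
    have e4 : 16 * ((K : ℝ) * K) ≤ N := by
      have : 16 * (K * K) ≤ N := by nlinarith
      exact_mod_cast this
    have e5 : 1 ≤ μ ^ 2 := one_le_pow₀ hμ
    nlinarith
  have hμμ : N * μ ≤ N * μ ^ 2 := by
    refine mul_le_mul_of_nonneg_left ?_ (by linarith)
    nlinarith
  have hT : 2 * C₁ * C₂ * ff (2 * Q) * ff 1 * (N * μ) ≤
      2 * C₁ * C₂ * ff (2 * Q) * ff 1 * (N * μ ^ 2) :=
    mul_le_mul_of_nonneg_left hμμ (by positivity)
  linarith

theorem hFNP (hP : StPRP) (hB : StBTP) (hA : StAVP) (hC : StCLP) (hF : StFMP) : StFNP := by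
  classical
  intro Q a hQ
  obtain ⟨b, hb1, hb2⟩ := hC Q a hQ
  obtain ⟨c₁, hc₁, K₀, N₁, hF1⟩ := hF Q a b hQ hb1 hb2
  obtain ⟨C₁, hC₁, hP1⟩ := hP
  obtain ⟨C₂, hC₂, hB1⟩ := hB
  obtain ⟨C₃, hC₃, hA1⟩ := hA
  have hffQ := ff_one_le (2 * Q)
  have hff1 := ff_one_le 1
  set C' : ℝ := 1 + 2 * C₁ * C₂ * ff (2 * Q) * ff 1 + 4 * C₁ * C₃ * ff (2 * Q) with hC'
  have hC'0 : 0 < C' := by positivity
  have hev : ∀ᶠ N : ℕ in Filter.atTop, 2 ≤ Real.log (Real.log N) ∧ (K₀ : ℝ) + 2 ≤ Real.log N ∧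
      N₁ + 4 * Q ^ 2 + 2 ≤ N := by
    have t1 : Filter.Tendsto (fun N : ℕ => Real.log N) Filter.atTop Filter.atTop :=
      Real.tendsto_log_atTop.comp tendsto_natCast_atTop_atTop
    filter_upwards [(Real.tendsto_log_atTop.comp t1).eventually_ge_atTop 2,
      t1.eventually_ge_atTop ((K₀ : ℝ) + 2), Filter.eventually_ge_atTop (N₁ + 4 * Q ^ 2 + 2)]
      with N a1 a2 a3
    exact ⟨a1, a2, a3⟩
  obtain ⟨N₀, hN₀⟩ := Filter.eventually_atTop.1 hev
  refine ⟨min (c₁ / 2) (c₁ ^ 2 / (4 * C')), 3, lt_min (by positivity) (by positivity), by norm_num,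
    N₀, fun N hN K hK1 hK2 => ?_⟩
  obtain ⟨a1, a2, a3⟩ := hN₀ N hN
  set L : ℝ := Real.log N with hL
  set ℓ : ℝ := Real.log L with hℓ
  have hL2 : 2 ≤ L := by
    have : (0 : ℝ) ≤ K₀ := Nat.cast_nonneg _
    linarith
  have hN0 : (0 : ℝ) < N := by
    have : 0 < N := by omega
    exact_mod_cast this
  have hK3 : 3 * (L * ℓ) ≤ K := hK1
  have hLℓ : L * 2 ≤ L * ℓ := mul_le_mul_of_nonneg_left a1 (by linarith)
  have hKR : (K₀ : ℝ) + 2 ≤ K := by linarith
  have hKK : K₀ + 2 ≤ K := by exact_mod_cast hKR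
  have hK0 : (0 : ℝ) < K := by
    have : (0 : ℝ) ≤ K₀ := Nat.cast_nonneg _
    linarith
  have hK2R : (2 : ℝ) ≤ K := by
    have : (0 : ℝ) ≤ K₀ := Nat.cast_nonneg _
    linarith
  have hlogK : 0 < Real.log K := Real.log_pos (by linarith)
  -- the lower bound of `μ`
  have hlogKK : L * Real.log K ≤ K := by
    have hK1' : 0 < 3 * (L * ℓ) := by nlinarith
    have e1 : Real.log K = Real.log (3 * (L * ℓ)) + Real.log (K / (3 * (L * ℓ))) := by
      rw [← Real.log_mul hK1'.ne' (by positivity)]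
      congr 1
      field_simp
    have e2 : Real.log (3 * (L * ℓ)) ≤ 3 * ℓ := by
      rw [Real.log_mul (by norm_num) (by nlinarith), Real.log_mul (by linarith) (by linarith)]
      have e3 : Real.log 3 ≤ 3 - 1 := Real.log_le_sub_one_of_pos (by norm_num)
      have e4 : Real.log ℓ ≤ ℓ - 1 := Real.log_le_sub_one_of_pos (by linarith)
      have e5 : Real.log L = ℓ := rfl
      linarith
    have e3 : Real.log (K / (3 * (L * ℓ))) ≤ K / (3 * (L * ℓ)) - 1 :=
      Real.log_le_sub_one_of_pos (by positivity)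
    have e4 : 1 ≤ K / (3 * (L * ℓ)) := by
      rw [le_div_iff₀ hK1']
      linarith
    have e5 : Real.log K ≤ 3 * ℓ * (K / (3 * (L * ℓ))) := by
      nlinarith
    have e6 : 3 * ℓ * (K / (3 * (L * ℓ))) = K / L := by
      field_simp
    rw [e6, le_div_iff₀ (by linarith)] at e5
    linarith
  have hμ : 1 ≤ (K : ℝ) / (Real.log K * Real.log N) := by
    rw [le_div_iff₀ (by positivity)]
    linarith
  set μ : ℝ := (K : ℝ) / (Real.log K * Real.log N) with hμd
  -- `M`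
  have hM4 : 4 * Q ≤ N / Q := by
    rw [Nat.le_div_iff_mul_le (by omega)]
    nlinarith
  have hMM : N ≤ (N / Q) * (N / Q) := by
    have k1 := Nat.div_add_mod N Q
    have k2 := Nat.mod_lt N (by omega : 0 < Q)
    have k3 : Q * (N / Q) + Q ≤ 2 * Q * (N / Q) := by nlinarith
    have k4 : 2 * Q * (N / Q) ≤ (N / Q) * (N / Q) := Nat.mul_le_mul_right _ (by omega)
    omega
  have hML : Real.log N ≤ 2 * Real.log ((N / Q : ℕ) : ℝ) := by
    have k1 : (N : ℝ) ≤ ((N / Q : ℕ) : ℝ) ^ 2 := by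
      rw [pow_two]
      exact_mod_cast hMM
    have k2 := Real.log_le_log hN0 k1
    rw [Real.log_pow] at k2
    exact_mod_cast k2
  have hsec := second (a := a) (b := b) hC₁ hC₂ hC₃ hQ hP1 hB1 hA1 (by omega : 2 ≤ K) (by omega : 2 ≤ N / Q)
    hML (by omega : 2 ≤ N) hK2 hμ
  have hfst := hF1 N K (by omega) (by omega) hK2
  set F : ℕ → ℝ := fun n => (((pc K Q b).filter (fun p => (2 * n + sg p).Prime)).card : ℝ) with hFd
  have hfst2 : c₁ * (N * μ) ≤ ∑ n ∈ cls Q a N, F n := by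
    have e1 : (N : ℝ) * K / (Real.log K * Real.log N) = N * μ := by
      rw [hμd]
      ring
    rw [e1] at hfst
    refine hfst.trans (le_of_eq ?_)
    have e2 : ∀ p ∈ pc K Q b, (((Icc 1 N).filter (fun n => n % Q = a % Q ∧
        (2 * n + (p ^ 2 + p + 1)).Prime)).card : ℝ) =
        ∑ n ∈ cls Q a N, if (2 * n + sg p).Prime then (1 : ℝ) else 0 := by
      intro p _
      rw [Finset.sum_boole]
      unfold cls sg
      rw [Finset.filter_filter]
    rw [Finset.sum_congr rfl e2, Finset.sum_comm]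
    refine Finset.sum_congr rfl fun n _ => ?_
    rw [Finset.sum_boole]
  have hcard : ((cls Q a N).card : ℝ) ≤ N := by
    have h2 : (cls Q a N).card ≤ (Icc 1 N).card := Finset.card_le_card (Finset.filter_subset _ _)
    rw [Nat.card_Icc] at h2
    exact_mod_cast (by omega : (cls Q a N).card ≤ N)
  have hμ0 : 0 < μ := by linarith
  have hpz := pz (cls Q a N) F N (c₁ * (N * μ)) (C' * (N * μ ^ 2)) hN0 hcard (by positivity) hfst2 hsec
  set G := (cls Q a N).filter (fun n => c₁ * (N * μ) / (2 * N) ≤ F n) with hG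
  set c : ℝ := min (c₁ / 2) (c₁ ^ 2 / (4 * C')) with hc
  have hGN : c * N ≤ (G.card : ℝ) := by
    have e1 : (c₁ * (N * μ)) ^ 2 / 4 / (C' * (N * μ ^ 2)) ≤ (G.card : ℝ) := by
      rw [div_le_iff₀ (by positivity)]; exact hpz
    refine le_trans ?_ e1
    have e2 : (c₁ * (N * μ)) ^ 2 / 4 / (C' * (N * μ ^ 2)) = c₁ ^ 2 / (4 * C') * N := by
      field_simp
    rw [e2]
    exact mul_le_mul_of_nonneg_right (min_le_right _ _) hN0.le
  refine hGN.trans ?_
  have hsub : G ⊆ (Icc 1 N).filter (fun n : ℕ => n % Q = a % Q ∧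
        c * (K / (Real.log K * Real.log N)) ≤ ((ps K n).card : ℝ)) := by
    intro n hn
    rw [hG, mem_filter] at hn
    have hn1 := hn.1
    unfold cls at hn1
    rw [mem_filter] at hn1
    rw [mem_filter]
    refine ⟨hn1.1, hn1.2, ?_⟩
    have e1 : c₁ * (N * μ) / (2 * N) = c₁ / 2 * μ := by
      field_simp
    have e2 : F n ≤ ((ps K n).card : ℝ) := by
      show (((pc K Q b).filter (fun p => (2 * n + sg p).Prime)).card : ℝ) ≤ ((ps K n).card : ℝ)
      have : ((pc K Q b).filter (fun p => (2 * n + sg p).Prime)).card ≤ (ps K n).card := by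
        refine Finset.card_le_card ?_
        intro p hp
        rw [mem_filter] at hp
        obtain ⟨hp1, hp2⟩ := hp
        unfold pc at hp1
        unfold ps
        rw [mem_filter] at hp1 ⊢
        exact ⟨hp1.1, hp1.2.1, hp2⟩
      exact_mod_cast this
    calc c * (K / (Real.log K * Real.log N)) ≤ c₁ / 2 * μ :=
          mul_le_mul_of_nonneg_right (min_le_left _ _) hμ0.le
      _ = c₁ * (N * μ) / (2 * N) := e1.symm
      _ ≤ F n := hn.2
      _ ≤ _ := e2
  exact_mod_cast Finset.card_le_card hsub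

end Pool.Agent.Helper55.PB
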